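import Pool.Agent.Helper227.EN.Lang

/-!
Strongly CP-generic predicates in models of Peano arithmetic.

The language of arithmetic `LA = {0, 1, +, ·, <}` and the theory `PA` are those of
`Pool.Agent.Helper227.EN.Lang`.
-/

set_option autoImplicit false

open FirstOrder FirstOrder.Language
open Pool.Agent.Helper227.EN

universe u v

namespace Pool.Agent.R709.CP

/-- `B ⊆ Mⁿ` is spread: it is infinite, every tuple in `B` has pairwise distinct entries, and any
two distinct tuples in `B` have disjoint sets of entries. -/
def Spread {M : Type u} {n : ℕ} (B : Set (Fin n → M)) : Prop :=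
  B.Infinite ∧ (∀ b ∈ B, Function.Injective b) ∧
    ∀ b ∈ B, ∀ c ∈ B, b ≠ c → Disjoint (Set.range b) (Set.range c)

/-- `X ⊆ M` is strongly CP-generic: for all `n ≥ 1`, all `D ⊆ Mⁿ` which are definable in the
language of arithmetic with parameters from `M` and contain a spread subset, and all
`I ⊆ {1, …, n}`, there is `b ∈ D` with `b i ∈ X ↔ i ∈ I` for all `i`. -/
def StronglyCPGeneric (M : Type u) [LA.Structure M] (X : Set M) : Prop :=
  ∀ n : ℕ, 1 ≤ n → ∀ D : Set (Fin n → M), (Set.univ : Set M).Definable LA D →
    (∃ B ⊆ D, Spread B) → ∀ I : Set (Fin n), ∃ b ∈ D, ∀ i, b i ∈ X ↔ i ∈ I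

/-- the relation symbols of the language `{U}` with one unary predicate symbol `U` -/
inductive UR : ℕ → Type
  | U : UR 1

/-- the language `{U}` with one unary predicate symbol `U` -/
def LU : FirstOrder.Language.{0, 0} := ⟨fun _ => Empty, UR⟩

/-- the `{U}`-structure with universe `M` in which `U` is interpreted by `X` -/
@[reducible] def predStr (M : Type u) (X : Set M) : LU.Structure M where
  funMap := fun {_} f => (f : Empty).elim
  RelMap := fun {n} r => match n, r with
    | _, UR.U => fun v => v 0 ∈ X

/-- the language of arithmetic with an additional unary predicate symbol `U` -/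
abbrev LAU : FirstOrder.Language.{0, 0} := LA.sum LU

/-- the expansion `(M, X)` of `M`, interpreting `U` by `X` -/
@[reducible] def expand (M : Type u) [LA.Structure M] (X : Set M) : LAU.Structure M :=
  @Language.sumStructure LA LU M _ (predStr M X)

/-- the elementary embeddings `(M, X) → (N, Y)` in the language of arithmetic together with `U` -/
abbrev ElemExt (M : Type u) [LA.Structure M] (X : Set M) (N : Type v) [LA.Structure N]
    (Y : Set N) : Type (max u v) :=
  @ElementaryEmbedding LAU M N (expand M X) (expand N Y)

end Pool.Agent.R709.CP
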