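import Pool.Agent.TH752.AR.PA
import Pool.Agent.R709.CP.Defs

/-!
Models of `PA` as ordered semirings (compare `Pool.Agent.TH752.AR.pa_cod`).
-/

set_option autoImplicit false

open FirstOrder FirstOrder.Language
open Pool.Agent.Helper227.EN
open Pool.Agent.TH752.AR

universe u v

namespace Pool.Agent.R709.CP

/-- compatibility of the algebraic structure with the `LA`-structure -/
structure Comp (M : Type u) [LA.Structure M] [CommSemiring M] [LinearOrder M] : Prop where
  zero : (0 : M) = Structure.funMap (L := LA) AF.zero ![]
  one : (1 : M) = Structure.funMap (L := LA) AF.one ![]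
  add : ∀ x y : M, x + y = Structure.funMap (L := LA) AF.add ![x, y]
  mul : ∀ x y : M, x * y = Structure.funMap (L := LA) AF.mul ![x, y]
  lt : ∀ x y : M, x < y ↔ Structure.RelMap (L := LA) AR.lt ![x, y]

/-- a model of `PA` is an ordered semiring with induction for definable sets -/
theorem pa_ari {M : Type u} [LA.Structure M] (h : M ⊨ PA) :
    ∃ (_ : CommSemiring M) (_ : LinearOrder M) (_ : IsStrictOrderedRing M)
      (_ : CanonicallyOrderedAdd M), Ari LA M ∧ Comp M := by
  classical
  have hm : M ⊨ PAminus := h.mono Set.subset_union_left
  have H := pa_ax M hm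
  let z : M := Structure.funMap (L := LA) AF.zero ![]
  let o : M := Structure.funMap (L := LA) AF.one ![]
  let ad : M → M → M := fun x y => Structure.funMap (L := LA) AF.add ![x, y]
  let mu : M → M → M := fun x y => Structure.funMap (L := LA) AF.mul ![x, y]
  let lt : M → M → Prop := fun x y => Structure.RelMap (L := LA) AR.lt ![x, y]
  have H' : PaAx M z o ad mu lt := H
  let iS : CommSemiring M :=
    { add := ad
      mul := mu
      zero := z
      one := o
      nsmul := fun n x => Nat.rec z (fun _ y => ad y x) n
      nsmul_zero := fun x => rfl
      nsmul_succ := fun n x => rfl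
      npow := fun n x => Nat.rec o (fun _ y => mu y x) n
      npow_zero := fun x => rfl
      npow_succ := fun n x => rfl
      natCast := fun n => Nat.rec z (fun _ y => ad y o) n
      natCast_zero := rfl
      natCast_succ := fun n => rfl
      add_assoc := H'.aa
      zero_add := fun x => (H'.ac z x).trans (H'.az x)
      add_zero := H'.az
      add_comm := H'.ac
      mul_assoc := H'.ma
      one_mul := fun x => (H'.mc o x).trans (H'.mo x)
      mul_one := H'.mo
      mul_comm := H'.mc
      zero_mul := fun x => (H'.mc z x).trans (H'.mz x)
      mul_zero := H'.mz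
      left_distrib := H'.di
      right_distrib := fun x y w => by
        change mu (ad x y) w = ad (mu x w) (mu y w)
        rw [H'.mc, H'.di, H'.mc w x, H'.mc w y] }
  let iL : LinearOrder M :=
    { le := fun x y => lt x y ∨ x = y
      lt := lt
      le_refl := fun x => Or.inr rfl
      le_trans := by
        rintro x y w (h1 | h1) (h2 | h2)
        · exact Or.inl (H'.tr x y w h1 h2)
        · exact Or.inl (h2 ▸ h1)
        · exact Or.inl (h1 ▸ h2)
        · exact Or.inr (h1.trans h2)
      lt_iff_le_not_ge := by
        intro x y
        constructor
        · intro h1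
          refine ⟨Or.inl h1, ?_⟩
          rintro (h2 | h2)
          · exact H'.ir x (H'.tr x y x h1 h2)
          · exact H'.ir x (by rw [h2] at h1; rw [h2] at *; exact h1)
        · rintro ⟨h1 | h1, h2⟩
          · exact h1
          · exact absurd (Or.inr h1.symm) h2
      le_antisymm := by
        rintro x y (h1 | h1) (h2 | h2)
        · exact absurd (H'.tr x y x h1 h2) (H'.ir x)
        · exact h2.symm
        · exact h1
        · exact h1
      le_total := by
        intro x y
        rcases H'.tot x y with h1 | h1 | h1
        · exact Or.inl (Or.inl h1)
        · exact Or.inl (Or.inr h1)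
        · exact Or.inr (Or.inl h1)
      toDecidableLE := Classical.decRel _ }
  have hlt : ∀ x y : M, x < y ↔ lt x y := fun x y => Iff.rfl
  have hle : ∀ x y : M, x ≤ y ↔ lt x y ∨ x = y := fun x y => Iff.rfl
  have h0 : ∀ x : M, 0 ≤ x := by
    intro x
    exact H'.nn x
  have hzo : (0 : M) < 1 := H'.zo
  have haddr : ∀ x y w : M, x < y → x + w < y + w := fun x y w h => H'.la x y w h
  have haddr' : ∀ x y : M, x ≤ y → ∀ w, x + w ≤ y + w := by
    intro x y hxy w
    rcases hxy with h | h
    · exact (haddr x y w h).le
    · rw [h]
  have hmulr : ∀ x y w : M, 0 < w → x < y → x * w < y * w := fun x y w hw h => H'.lm x y w hw h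
  have iO : IsStrictOrderedRing M := by
    exact
      { add_le_add_left := haddr'
        le_of_add_le_add_left := by
          intro x y w hxy
          rcases H'.tot y w with h1 | h1 | h1
          · exact Or.inl h1
          · exact Or.inr h1
          · exfalso
            have h2 := haddr w y x h1
            rw [add_comm w x, add_comm y x] at h2
            exact absurd h2 (not_lt.mpr hxy)
        zero_le_one := hzo.le
        exists_pair_ne := ⟨0, 1, hzo.ne⟩
        mul_lt_mul_of_pos_left := by
          intro w hw x y hxy
          show w * x < w * y
          rw [mul_comm w x, mul_comm w y]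
          exact hmulr x y w hw hxy
        mul_lt_mul_of_pos_right := by
          intro w hw x y hxy
          exact hmulr x y w hw hxy }
  have iC : CanonicallyOrderedAdd M :=
    { exists_add_of_le := by
        intro x y hxy
        rcases hxy with h | h
        · obtain ⟨w, hw⟩ := H'.df x y h
          exact ⟨w, hw.symm⟩
        · exact ⟨0, by rw [h, add_zero]⟩
      le_self_add := by
        intro x y
        have h2 := haddr' 0 y (h0 y) x
        rw [zero_add, add_comm y x] at h2
        exact h2
      le_add_self := by
        intro x y
        have h2 := haddr' 0 y (h0 y) x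
        rw [zero_add] at h2
        exact h2 }
  have hA : Ari LA M :=
    { dadd := by
        refine (Dfn.fm (L := LA) (Term.equal (Term.var 0)
          (tadd (Term.var 1) (Term.var 2)))).congr fun v => ?_
        rw [Formula.realize_equal, pa_tadd]
        rfl
      dmul := by
        refine (Dfn.fm (L := LA) (Term.equal (Term.var 0)
          (tmul (Term.var 1) (Term.var 2)))).congr fun v => ?_
        rw [Formula.realize_equal, pa_tmul]
        rfl
      disc := by
        intro x hx
        rcases (h0 x) with h | h
        · rcases H'.ds x h with h2 | h2
          · exact absurd (H'.tr _ _ _ h2 hx) (H'.ir _)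
          · rw [← h2] at hx
            exact absurd hx (H'.ir _)
        · exact h.symm
      ind := fun S hS h0 hs => pa_ind_dfn h hS h0 hs }
  exact ⟨iS, iL, iO, iC, hA, ⟨rfl, rfl, fun _ _ => rfl, fun _ _ => rfl, fun _ _ => Iff.rfl⟩⟩

end Pool.Agent.R709.CP
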