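import Pool.Agent.R709.CP.Basic

/-!
In a nonstandard model, a definable set with a spread subset contains a tuple which avoids finitely
many rows `{⟨x, t⟩ : t standard}`.
-/

set_option autoImplicit false

open FirstOrder FirstOrder.Language
open Pool.Agent.Helper227.EN
open Pool.Agent.TH752.AR

universe u v

namespace Pool.Agent.R709.CP

section fin
variable {L : FirstOrder.Language.{0, 0}} {N : Type u} [L.Structure N]

theorem dfn_memFin {A : Set N} {F : Set N} (hF : F.Finite) (hFA : F ⊆ A) :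
    Dfn L A fun v => v 0 ∈ F := by
  induction F, hF using Set.Finite.induction_on with
  | empty => exact (Dfn.bool False).congr fun v => by simp
  | @insert a S _ _ ih =>
    refine ((Dfn.const (hFA (Set.mem_insert _ _)) 0).or
      (ih ((Set.subset_insert _ _).trans hFA))).congr fun v => ?_
    rw [Set.mem_insert_iff]

/-- finite conjunctions over a finite set of elements -/
theorem dfn_ballFin {A : Set N} {F : Set N} (hF : F.Finite) {R : N → (ℕ → N) → Prop}
    (hR : ∀ x ∈ F, Dfn L A (R x)) : Dfn L A fun v => ∀ x ∈ F, R x v := by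
  induction F, hF using Set.Finite.induction_on with
  | empty => exact (Dfn.bool True).congr fun v => by simp
  | @insert a S _ _ ih =>
    refine ((hR a (Set.mem_insert _ _)).and
      (ih fun x hx => hR x (Set.mem_insert_of_mem _ hx))).congr fun v => ?_
    rw [Set.forall_mem_insert]

/-- the variable map which sends the variables `0, 1` to the variables `Sum.inl 0, Sum.inr i` -/
def vmap {n : ℕ} (i : Fin n) : ℕ → ℕ ⊕ Fin n
  | 0 => Sum.inl 0
  | _ + 1 => Sum.inr i

/-- definability of an existential quantification over tuples -/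
theorem definable_exTuple {A : Set N} {n : ℕ} {S : Set (ℕ ⊕ Fin n → N)} (hS : A.Definable L S) :
    Dfn L A fun v => ∃ w : Fin n → N, Sum.elim v w ∈ S :=
  Set.Definable.exists_of_finite hS

end fin

section
variable {M : Type u} [LA.Structure M] [CommSemiring M] [LinearOrder M] [IsStrictOrderedRing M]
  [CanonicallyOrderedAdd M]

theorem avoid_rows (h : Ari LA M) {c₀ : M} (hc₀ : ∀ j : ℕ, c₀ ≠ j) {n : ℕ}
    {D : Set (Fin n → M)} (hD : (Set.univ : Set M).Definable LA D) (hB : ∃ B ⊆ D, Spread B)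
    {F R : Set M} (hF : F.Finite) (hR : R.Finite) :
    ∃ v ∈ D, Function.Injective v ∧ (∀ i, v i ∉ F) ∧ ∀ x ∈ R, ∀ t : ℕ, ∀ i, v i ≠ prN x (t : M) := by
  classical
  obtain ⟨B, hBD, hB⟩ := hB
  let Q : M → Prop := fun c => ∃ v : Fin n → M, v ∈ D ∧ Function.Injective v ∧ (∀ i, v i ∉ F) ∧
    ∀ i, ∀ x ∈ R, ∀ t, t ≤ c → v i ≠ prN x t
  -- the standard numbers satisfy `Q`
  have hQ : ∀ j : ℕ, Q j := by
    intro j
    have hK : (F ∪ (fun p : M × ℕ => prN p.1 (p.2 : M)) '' (R ×ˢ {t | t ≤ j})).Finite :=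
      hF.union ((hR.prod (Set.finite_le_nat j)).image _)
    obtain ⟨v, hv, hvK⟩ := hB.avoid hK
    refine ⟨v, hBD hv, hB.2.1 v hv, fun i hi => hvK i (Or.inl hi), ?_⟩
    intro i x hx t ht he
    have ht' : t < ((j + 1 : ℕ) : M) := by
      rw [Nat.cast_succ]
      exact h.lt_succ.2 ht
    obtain ⟨k, hk, rfl⟩ := exists_of_lt_nat h ht'
    exact hvK i (Or.inr ⟨(x, k), ⟨hx, Nat.lt_succ_iff.1 hk⟩, he.symm⟩)
  -- `Q` is definable
  have hdef : Dfn LA (Set.univ : Set M) fun v => Q (v 0) := by
    have h1 : (Set.univ : Set M).Definable LA {g : ℕ ⊕ Fin n → M | g ∘ Sum.inr ∈ D} :=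
      hD.preimage_comp Sum.inr
    have h2 : (Set.univ : Set M).Definable LA
        {g : ℕ ⊕ Fin n → M | Function.Injective (g ∘ Sum.inr)} := by
      have h3 : ∀ p : Fin n × Fin n, (Set.univ : Set M).Definable LA
          {g : ℕ ⊕ Fin n → M | g (Sum.inr p.1) = g (Sum.inr p.2) → p.1 = p.2} := by
        intro p
        have h4 : Dfn LA (Set.univ : Set M) fun v => v 0 = v 1 → p.1 = p.2 :=
          (Dfn.eq 0 1).imp (Dfn.bool _)
        exact Set.Definable.preimage_comp
          (fun k : ℕ => match k with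
            | 0 => (Sum.inr p.1 : ℕ ⊕ Fin n)
            | _ + 1 => Sum.inr p.2) h4
      have h5 := Set.definable_iInter_of_finite h3
      convert h5 using 1
      ext g
      simp only [Set.mem_iInter]
      constructor
      · intro hg p hp
        exact hg hp
      · intro hg i j hij
        exact hg (i, j) hij
    have h3 : ∀ i : Fin n, (Set.univ : Set M).Definable LA
        {g : ℕ ⊕ Fin n → M | g (Sum.inr i) ∉ F ∧
          ∀ x ∈ R, ∀ t, t ≤ g (Sum.inl 0) → g (Sum.inr i) ≠ prN x t} := by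
      intro i
      have h4 : Dfn LA (Set.univ : Set M) fun v => v 1 ∉ F ∧
          ∀ x ∈ R, ∀ t, t ≤ v 0 → v 1 ≠ prN x t := by
        have h5 : Dfn LA (Set.univ : Set M) fun v => v 1 ∈ F :=
          (dfn_memFin hF (Set.subset_univ _)).ren fun _ => 1
        have h6 : ∀ x ∈ R, Dfn LA (Set.univ : Set M) fun v => ∀ t, t ≤ v 0 → v 1 ≠ prN x t := by
          intro x _
          have h7 : Dfn LA (Set.univ : Set M) fun w => w 0 ≤ w 1 →
              ¬ w 2 = (x + w 0) * (x + w 0) + x :=
            (h.le (DF.var 0) (DF.var 1)).imp (Dfn.eqT (DF.var 2)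
              (h.add (h.mul (h.add (DF.par x) (DF.var 0)) (h.add (DF.par x) (DF.var 0)))
                (DF.par x))).not
          exact h7.all
        exact h5.not.and (dfn_ballFin hR h6)
      exact Set.Definable.preimage_comp (vmap i) h4
    have h4 := (h1.inter h2).inter (Set.definable_iInter_of_finite h3)
    refine (definable_exTuple h4).congr fun v => ?_
    refine exists_congr fun w => ?_
    simp only [Set.mem_inter_iff, Set.mem_iInter]
    constructor
    · rintro ⟨⟨ha, hb⟩, hc⟩
      exact ⟨ha, hb, fun i => (hc i).1, fun i => (hc i).2⟩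
    · rintro ⟨ha, hb, hc, hd⟩
      exact ⟨⟨ha, hb⟩, fun i => ⟨hc i, hd i⟩⟩
  by_contra hcon
  have hstd : ∀ c, Q c → ∃ j : ℕ, c = j := by
    intro c hc
    by_contra hc'
    push Not at hc'
    obtain ⟨v, hv1, hv2, hv3, hv4⟩ := hc
    exact hcon ⟨v, hv1, hv2, hv3, fun x hx t i =>
      hv4 i x hx t (nat_lt_of_nonstd h hc' t).le⟩
  have hall := h.ind Q hdef (by have := hQ 0; rwa [Nat.cast_zero] at this) (by
    intro c hc
    obtain ⟨j, rfl⟩ := hstd c hc
    have := hQ (j + 1)
    rwa [Nat.cast_succ] at this)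
  obtain ⟨j, hj⟩ := hstd c₀ (hall c₀)
  exact hc₀ j hj

end

end Pool.Agent.R709.CP
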