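import Pool.Agent.R709.CP.Alg

/-!
The standard model; standard elements; spread sets; the gap property.
-/

set_option autoImplicit false

open FirstOrder FirstOrder.Language
open Pool.Agent.Helper227.EN
open Pool.Agent.TH752.AR

universe u v

namespace Pool.Agent.R709.CP

/-- the standard model is a model of `PA` -/
theorem std_pa : @Theory.Model LA ℕ stdStr PA := by
  let _ : LA.Structure ℕ := stdStr
  have h1 : ℕ ⊨ PAminus := by
    simp only [PAminus, axAddAssoc, axAddComm, axMulAssoc, axMulComm, axDistrib, axAddZero,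
      axMulZero, axMulOne, axLtTrans, axLtIrrefl, axLtTotal, axAddLt, axMulLt, axDiff,
      axZeroLtOne, axDiscrete, axNonneg, Theory.model_iff, Set.mem_insert_iff,
      Set.mem_singleton_iff, forall_eq_or_imp, forall_eq, Sentence.Realize, Formula.Realize,
      BoundedFormula.realize_all, BoundedFormula.realize_bdEqual, BoundedFormula.realize_imp,
      BoundedFormula.realize_not, BoundedFormula.realize_sup, BoundedFormula.realize_ex, pa_t0,
      pa_t1, pa_tadd, pa_tmul, pa_flt, Term.realize_var, Sum.elim_inr]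
    refine ⟨?_, ?_, ?_, ?_, ?_, ?_, ?_, ?_, ?_, ?_, ?_, ?_, ?_, ?_, ?_, ?_, ?_⟩
    · intro x y w; exact Nat.add_assoc x y w
    · intro x y; exact Nat.add_comm x y
    · intro x y w; exact Nat.mul_assoc x y w
    · intro x y; exact Nat.mul_comm x y
    · intro x y w; exact Nat.mul_add x y w
    · intro x; exact Nat.add_zero x
    · intro x; exact Nat.mul_zero x
    · intro x; exact Nat.mul_one x
    · intro x y w h1 h2; exact Nat.lt_trans h1 h2
    · intro x; exact Nat.lt_irrefl x
    · intro x y; exact Nat.lt_trichotomy x y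
    · intro x y w h1; exact Nat.add_lt_add_right h1 w
    · intro x y w h1 h2; exact Nat.mul_lt_mul_of_pos_right h2 h1
    · intro x y h1; exact ⟨y - x, Nat.add_sub_cancel' (Nat.le_of_lt h1)⟩
    · exact Nat.zero_lt_one
    · intro x h1; exact Nat.lt_or_eq_of_le h1
    · intro x; exact (Nat.eq_zero_or_pos x).symm.imp_right Eq.symm
  rw [Theory.model_iff]
  rintro σ (hσ | ⟨n, φ, rfl⟩)
  · exact Theory.realize_sentence_of_mem PAminus hσ
  · rw [pa_ind]
    intro y h0 hs x
    induction x with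
    | zero => exact h0
    | succ x ih => exact hs x ih

section fin
variable {L : FirstOrder.Language.{0, 0}} {N : Type u} [L.Structure N]

theorem dfn_allFin {A : Set N} : ∀ {n : ℕ} {R : Fin n → (ℕ → N) → Prop},
    (∀ i, Dfn L A (R i)) → Dfn L A fun v => ∀ i, R i v
  | 0, R, _ => (Dfn.bool True).congr fun v => by simp
  | n + 1, R, h => by
    refine ((h 0).and (dfn_allFin fun i => h i.succ)).congr fun v => ?_
    rw [Fin.forall_fin_succ]

/-- from sequences to tuples -/
def toFin {n : ℕ} (hn : 1 ≤ n) (i : ℕ) : Fin n := if h : i < n then ⟨i, h⟩ else ⟨0, hn⟩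

theorem toFin_val {n : ℕ} (hn : 1 ≤ n) (i : Fin n) : toFin hn i = i := by
  unfold toFin
  rw [dif_pos i.2]

theorem definable_fin {A : Set N} {R : (ℕ → N) → Prop} (h : Dfn L A R) {n : ℕ} (hn : 1 ≤ n) :
    A.Definable L {w : Fin n → N | R (w ∘ toFin hn)} :=
  Set.Definable.preimage_comp (toFin hn) h

end fin

/-- in a spread set there is a tuple avoiding a given finite set -/
theorem Spread.avoid {M : Type u} {n : ℕ} {B : Set (Fin n → M)} (hB : Spread B) {K : Set M}
    (hK : K.Finite) : ∃ v ∈ B, ∀ i, v i ∉ K := by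
  classical
  by_contra hcon
  push Not at hcon
  have : Nonempty (Fin n) := by
    obtain ⟨v, hv⟩ := hB.1.nonempty
    obtain ⟨i, -⟩ := hcon v hv
    exact ⟨i⟩
  choose! i hi using hcon
  obtain ⟨h1, -, h3⟩ := hB
  have h4 : Set.InjOn (fun v : Fin n → M => v (i v)) B := by
    intro v hv w hw hvw
    by_contra hne
    have h5 := h3 v hv w hw hne
    exact Set.disjoint_left.1 h5 ⟨i v, rfl⟩ ⟨i w, hvw.symm⟩
  exact h1 (Set.Finite.of_finite_image (hK.subset (by
    rintro _ ⟨v, hv, rfl⟩
    exact hi v hv)) h4)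

section
variable {M : Type u} [LA.Structure M] [CommSemiring M] [LinearOrder M] [IsStrictOrderedRing M]
  [CanonicallyOrderedAdd M]

theorem exists_of_lt_nat (h : Ari LA M) {n : ℕ} : ∀ {x : M}, x < (n : M) → ∃ i : ℕ, i < n ∧ x = i := by
  induction n with
  | zero =>
    intro x hx
    rw [Nat.cast_zero] at hx
    exact absurd hx not_lt_zero
  | succ n ih =>
    intro x hx
    rw [Nat.cast_succ] at hx
    rcases (h.lt_succ.1 hx).lt_or_eq with h1 | h1
    · obtain ⟨i, hi, hx⟩ := ih h1
      exact ⟨i, by omega, hx⟩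
    · exact ⟨n, by omega, h1⟩

theorem nat_lt_of_nonstd (h : Ari LA M) {x : M} (hx : ∀ j : ℕ, x ≠ j) (j : ℕ) : (j : M) < x := by
  by_contra hcon
  have h1 : x < ((j + 1 : ℕ) : M) := by
    rw [Nat.cast_succ]
    exact h.lt_succ.2 (not_lt.1 hcon)
  obtain ⟨i, -, hi⟩ := exists_of_lt_nat h h1
  exact hx i hi

/-- the gap property of strongly CP-generic sets -/
theorem gap (h : Ari LA M) {X : Set M} (hX : StronglyCPGeneric M X) (n : ℕ) :
    ∃ y : M, ∀ x, x < (n : M) → y + x ∉ X := by
  rcases Nat.eq_zero_or_pos n with rfl | hn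
  · refine ⟨0, fun x hx => ?_⟩
    rw [Nat.cast_zero] at hx
    exact absurd hx not_lt_zero
  · have hn' : 1 ≤ n := hn
    have hD : Dfn LA (Set.univ : Set M) fun v => ∃ y, ∀ i : Fin n, v i = y + ((i : ℕ) : M) := by
      have h1 : Dfn LA (Set.univ : Set M) fun v => ∀ i : Fin n, v (i + 1) = v 0 + ((i : ℕ) : M) :=
        dfn_allFin fun i => Dfn.eqT (DF.var _) (h.add (DF.var 0) (DF.par _))
      exact h1.ex
    have hD' := definable_fin hD hn'
    have hB : Spread (Set.range fun j : ℕ => fun i : Fin n => (((j * n + i : ℕ)) : M)) := by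
      have inj : ∀ j j' : ℕ, ∀ i i' : Fin n,
          ((j * n + i : ℕ) : M) = ((j' * n + i' : ℕ) : M) → j = j' ∧ i = i' := by
        intro j j' i i' he
        have h2 : j * n + i = j' * n + i' := Nat.cast_injective he
        have h3 : j = j' := by
          have e1 : (j * n + i) / n = j := by
            rw [Nat.add_comm, Nat.add_mul_div_right _ _ hn, Nat.div_eq_of_lt i.2, Nat.zero_add]
          have e2 : (j' * n + i') / n = j' := by
            rw [Nat.add_comm, Nat.add_mul_div_right _ _ hn, Nat.div_eq_of_lt i'.2, Nat.zero_add]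
          rw [← e1, ← e2, h2]
        subst h3
        exact ⟨rfl, Fin.ext (by omega)⟩
      refine ⟨?_, ?_, ?_⟩
      · refine Set.infinite_range_of_injective fun j j' he => ?_
        exact (inj j j' ⟨0, hn⟩ ⟨0, hn⟩ (congrFun he ⟨0, hn⟩)).1
      · rintro _ ⟨j, rfl⟩ i i' he
        exact (inj j j i i' he).2
      · rintro _ ⟨j, rfl⟩ _ ⟨j', rfl⟩ hne
        rw [Set.disjoint_left]
        rintro _ ⟨i, rfl⟩ ⟨i', he⟩
        obtain ⟨rfl, -⟩ := inj j' j i' i he
        exact hne rfl
    obtain ⟨b, hb, hbX⟩ := hX n hn' _ hD' ⟨_, by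
      rintro _ ⟨j, rfl⟩
      refine ⟨((j * n : ℕ) : M), fun i => ?_⟩
      show (((j * n + (toFin hn' i : Fin n) : ℕ)) : M) = _
      rw [toFin_val, Nat.cast_add], hB⟩ ∅
    obtain ⟨y, hy⟩ := hb
    refine ⟨y, fun x hx => ?_⟩
    obtain ⟨i, hi, rfl⟩ := exists_of_lt_nat h hx
    have h2 := hy ⟨i, hi⟩
    have h3 : (b ∘ toFin hn') i = b ⟨i, hi⟩ := congrArg b (toFin_val hn' ⟨i, hi⟩)
    rw [h3] at h2
    have h4 := (hbX ⟨i, hi⟩).not.2 (Set.notMem_empty _)
    rw [h2] at h4
    exact h4

/-- in a strongly CP-generic model the gap property holds only at the standard numbers -/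
theorem std_of_gap (h : Ari LA M) {X : Set M} (hX : StronglyCPGeneric M X) {k : M}
    (hk : ∃ y : M, ∀ x, x < k → y + x ∉ X) : ∃ j : ℕ, k = j := by
  by_contra hcon
  push Not at hcon
  obtain ⟨y, hy⟩ := hk
  have hD : Dfn LA (Set.univ : Set M) fun v => ∃ x, x < k ∧ v 0 = y + x := by
    have h1 : Dfn LA (Set.univ : Set M) fun w => w 0 < k ∧ w 1 = y + w 0 :=
      (h.lt (DF.var 0) (DF.par k)).and (Dfn.eqT (DF.var 1) (h.add (DF.par y) (DF.var 0)))
    exact h1.ex
  have hD' := definable_fin hD (n := 1) le_rfl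
  have hB : Spread (Set.range fun j : ℕ => fun _ : Fin 1 => y + (j : M)) := by
    have inj : ∀ j j' : ℕ, y + (j : M) = y + (j' : M) → j = j' := by
      intro j j' he
      exact Nat.cast_injective (add_left_cancel he)
    refine ⟨?_, ?_, ?_⟩
    · exact Set.infinite_range_of_injective fun j j' he => inj j j' (congrFun he 0)
    · rintro _ ⟨j, rfl⟩ i i' _
      exact Subsingleton.elim _ _
    · rintro _ ⟨j, rfl⟩ _ ⟨j', rfl⟩ hne
      rw [Set.disjoint_left]
      rintro _ ⟨i, rfl⟩ ⟨i', he⟩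
      rw [inj j' j he] at hne
      exact hne rfl
  obtain ⟨b, ⟨x, hx, hb⟩, hbX⟩ := hX 1 le_rfl _ hD' ⟨_, by
    rintro _ ⟨j, rfl⟩
    exact ⟨(j : M), nat_lt_of_nonstd h hcon j, rfl⟩, hB⟩ Set.univ
  have h2 : b 0 = y + x := hb
  have h3 := (hbX 0).2 (Set.mem_univ _)
  rw [h2] at h3
  exact hy x hx h3

end

end Pool.Agent.R709.CP
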