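import Pool.Agent.R709.CP.Avoid

/-!
Construction of strongly CP-generic subsets of countable models.
-/

set_option autoImplicit false

open FirstOrder FirstOrder.Language
open Pool.Agent.Helper227.EN
open Pool.Agent.TH752.AR

universe u v w

namespace Pool.Agent.R709.CP

theorem exists_choice {M : Type u} {R : Type w} (idx : R → ℕ) (hidx : Function.Injective idx)
    (n : R → ℕ) (P : ∀ r, (Fin (n r) → M) → Prop)
    (h : ∀ r, ∀ F : Set M, F.Finite → ∃ v, P r v ∧ Function.Injective v ∧ ∀ i, v i ∉ F) :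
    ∃ V : ∀ r, Fin (n r) → M, (∀ r, P r (V r)) ∧ (∀ r, Function.Injective (V r)) ∧
      ∀ r r' i i', V r i = V r' i' → r = r' := by
  classical
  let Us : ∀ r, (∀ r', idx r' < idx r → Fin (n r') → M) → Set M := fun r f =>
    {m | ∃ (r' : R) (h : idx r' < idx r) (i : Fin (n r')), f r' h i = m}
  have hfin : ∀ r f, (Us r f).Finite := by
    intro r f
    have h1 : {r' | idx r' < idx r}.Finite :=
      Set.Finite.preimage hidx.injOn (Set.finite_lt_nat (idx r))
    have : Finite {r' | idx r' < idx r} := h1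
    have h2 : Us r f = ⋃ r' : {r' | idx r' < idx r}, Set.range (f r'.1 r'.2) := by
      ext m
      simp only [Set.mem_iUnion, Set.mem_range]
      constructor
      · rintro ⟨r', h', i, hi⟩
        exact ⟨⟨r', h'⟩, i, hi⟩
      · rintro ⟨⟨r', h'⟩, i, hi⟩
        exact ⟨r', h', i, hi⟩
    rw [h2]
    exact Set.finite_iUnion fun r' => Set.finite_range _
  let step : ∀ r, (∀ r', idx r' < idx r → Fin (n r') → M) → Fin (n r) → M := fun r f =>
    (h r (Us r f) (hfin r f)).choose
  have hstep : ∀ r f, P r (step r f) ∧ Function.Injective (step r f) ∧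
      ∀ i, step r f i ∉ Us r f := fun r f => (h r (Us r f) (hfin r f)).choose_spec
  let wf : WellFounded fun r r' : R => idx r < idx r' := (measure idx).wf
  let V : ∀ r, Fin (n r) → M := wf.fix step
  have hV : ∀ r, V r = step r fun r' _ => V r' := fun r => wf.fix_eq step r
  have key : ∀ r r', idx r' < idx r → ∀ i i', V r i ≠ V r' i' := by
    intro r r' hr i i' he
    have h1 := (hstep r fun r' _ => V r').2.2 i
    rw [← hV] at h1
    exact h1 ⟨r', hr, i', he.symm⟩
  refine ⟨V, fun r => ?_, fun r => ?_, ?_⟩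
  · have h1 := (hstep r fun r' _ => V r').1
    rwa [← hV] at h1
  · have h1 := (hstep r fun r' _ => V r').2.1
    rwa [← hV] at h1
  · intro r r' i i' he
    rcases lt_trichotomy (idx r) (idx r') with h1 | h1 | h1
    · exact absurd he.symm (key r' r h1 i' i)
    · exact hidx h1
    · exact absurd he (key r r' h1 i i')

instance : Countable LA.Symbols := by
  have h1 : Countable (Σ l, LA.Functions l) := by
    refine Function.Injective.countable (β := ℕ)
      (f := fun x : (Σ l, AF l) => match x with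
        | ⟨_, AF.zero⟩ => 0
        | ⟨_, AF.one⟩ => 1
        | ⟨_, AF.add⟩ => 2
        | ⟨_, AF.mul⟩ => 3) ?_
    rintro ⟨_, a⟩ ⟨_, b⟩ hab
    cases a <;> cases b <;> first | rfl | exact absurd hab (by decide)
  have h2 : Countable (Σ l, LA.Relations l) := by
    refine Function.Injective.countable (β := ℕ) (f := fun _ : (Σ l, AR l) => 0) ?_
    rintro ⟨_, a⟩ ⟨_, b⟩ _
    cases a
    cases b
    rfl
  exact inferInstanceAs (Countable ((Σ l, LA.Functions l) ⊕ (Σ l, LA.Relations l)))

/-- the requirements -/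
def Req (M : Type u) [LA.Structure M] : Type u :=
  {r : Σ n : ℕ, (LA[[(Set.univ : Set M)]].Formula (Fin n)) × Set (Fin n) //
    1 ≤ r.1 ∧ ∃ B : Set (Fin r.1 → M), (∀ v ∈ B, r.2.1.Realize v) ∧ Spread B}

instance {M : Type u} [LA.Structure M] [Countable M] : Countable (Req M) := by
  unfold Req
  infer_instance

section
variable {M : Type u} [LA.Structure M]

theorem generic_of_choice (V : ∀ r : Req M, Fin r.1.1 → M)
    (hV : ∀ r : Req M, r.1.2.1.Realize (V r)) (hinj : ∀ r : Req M, Function.Injective (V r))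
    (hV' : ∀ (r r' : Req M) (i : Fin r.1.1) (i' : Fin r'.1.1), V r i = V r' i' → r = r')
    (C : Set M) (hC : ∀ (r : Req M) (i : Fin r.1.1), V r i ∉ C) :
    StronglyCPGeneric M ({m | ∃ (r : Req M) (i : Fin r.1.1), i ∈ r.1.2.2 ∧ V r i = m} ∪ C) := by
  rintro n hn D ⟨φ, rfl⟩ hB I
  let r : Req M := ⟨⟨n, φ, I⟩, hn, hB⟩
  refine ⟨V r, hV r, fun i => ?_⟩
  constructor
  · rintro (⟨r', i', hi', he⟩ | hc)
    · obtain rfl : r' = r := hV' _ _ _ _ he
      have := hinj _ he
      rw [← this]
      exact hi'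
    · exact absurd hc (hC r i)
  · intro hi
    exact Or.inl ⟨r, i, hi, rfl⟩

/-- every countable structure has a strongly CP-generic subset -/
theorem exists_generic [Countable M] : ∃ X : Set M, StronglyCPGeneric M X := by
  obtain ⟨idx, hidx⟩ := exists_injective_nat (Req M)
  obtain ⟨V, h1, h2, h3⟩ := exists_choice (M := M) idx hidx (fun r => r.1.1)
    (fun r v => r.1.2.1.Realize v) (by
      intro r F hF
      obtain ⟨B, hBD, hB⟩ := r.2.2
      obtain ⟨v, hv, hvF⟩ := hB.avoid hF
      exact ⟨v, hBD v hv, hB.2.1 v hv, hvF⟩)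
  exact ⟨_, generic_of_choice V h1 h2 h3 ∅ fun _ _ => Set.notMem_empty _⟩

variable [CommSemiring M] [LinearOrder M] [IsStrictOrderedRing M] [CanonicallyOrderedAdd M]

/-- every countable nonstandard model has a strongly CP-generic subset which codes an injection
of the model into the natural numbers -/
theorem exists_coded (h : Ari LA M) [Countable M] {c₀ : M} (hc₀ : ∀ j : ℕ, c₀ ≠ j) :
    ∃ X : Set M, StronglyCPGeneric M X ∧ ∃ c : M → ℕ, Function.Injective c ∧
      (∀ x, prN x (c x : M) ∈ X) ∧ ∀ x, ∀ t : ℕ, c x < t → prN x (t : M) ∉ X := by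
  classical
  obtain ⟨idx, hidx⟩ := exists_injective_nat (Req M)
  obtain ⟨e, he⟩ := exists_injective_nat M
  have hlt : ∀ k : ℕ, {x : M | e x < k}.Finite := fun k =>
    Set.Finite.preimage he.injOn (Set.finite_lt_nat k)
  obtain ⟨V, h1, h2, h3⟩ := exists_choice (M := M) idx hidx (fun r => r.1.1)
    (fun r v => r.1.2.1.Realize v ∧ ∀ x, e x < idx r → ∀ t : ℕ, ∀ i, v i ≠ prN x (t : M)) (by
      intro r F hF
      have hD : (Set.univ : Set M).Definable LA {v : Fin r.1.1 → M | r.1.2.1.Realize v} :=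
        ⟨r.1.2.1, rfl⟩
      obtain ⟨B, hBD, hB⟩ := r.2.2
      obtain ⟨v, hv1, hv2, hv3, hv4⟩ := avoid_rows h hc₀ hD ⟨B, hBD, hB⟩ hF (hlt (idx r))
      exact ⟨v, ⟨hv1, fun x hx t i => hv4 x hx t i⟩, hv2, hv3⟩)
  -- the positions used in row `x`
  have hfin : ∀ x, {t : ℕ | ∃ r i, V r i = prN x (t : M)}.Finite := by
    intro x
    have hW : {m | ∃ r i, idx r < e x + 1 ∧ V r i = m}.Finite := by
      have h4 : {r | idx r < e x + 1}.Finite :=
        Set.Finite.preimage hidx.injOn (Set.finite_lt_nat (e x + 1))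
      have : Finite {r | idx r < e x + 1} := h4
      have h5 : {m | ∃ r i, idx r < e x + 1 ∧ V r i = m} =
          ⋃ r : {r | idx r < e x + 1}, Set.range (V r.1) := by
        ext m
        simp only [Set.mem_iUnion, Set.mem_range]
        constructor
        · rintro ⟨r, i, hr, hi⟩
          exact ⟨⟨r, hr⟩, i, hi⟩
        · rintro ⟨⟨r, hr⟩, i, hi⟩
          exact ⟨r, i, hr, hi⟩
      rw [h5]
      exact Set.finite_iUnion fun r => Set.finite_range _
    have hinj : Function.Injective fun t : ℕ => prN x (t : M) := by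
      intro t t' ht
      exact Nat.cast_injective (h.prN_inj ht).2
    refine (hW.preimage hinj.injOn).subset ?_
    rintro t ⟨r, i, hr⟩
    refine ⟨r, i, ?_, hr⟩
    by_contra hcon
    exact (h1 r).2 x (by omega) t i hr
  choose b hb using fun x => (hfin x).bddAbove
  let c : M → ℕ := fun x => Nat.pair (e x) (b x + 1)
  have hcb : ∀ x, b x < c x := by
    intro x
    have : b x + 1 ≤ Nat.pair (e x) (b x + 1) := Nat.right_le_pair _ _
    exact this
  have hc : Function.Injective c := by
    intro x y hxy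
    have h4 : (e x, b x + 1) = (e y, b y + 1) := by
      have := congrArg Nat.unpair hxy
      simpa only [c, Nat.unpair_pair] using this
    exact he (Prod.mk.inj h4).1
  -- no used position is above `b x`
  have hused : ∀ x, ∀ t : ℕ, b x < t → ∀ r i, V r i ≠ prN x (t : M) := by
    intro x t ht r i hr
    have : t ≤ b x := hb x ⟨r, i, hr⟩
    omega
  refine ⟨_, generic_of_choice V (fun r => (h1 r).1) h2 h3 (Set.range fun x => prN x (c x : M)) ?_,
    c, hc, fun x => Or.inr ⟨x, rfl⟩, ?_⟩
  · rintro r i ⟨x, hx⟩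
    exact hused x (c x) (hcb x) r i hx.symm
  · rintro x t ht (⟨r, i, -, hr⟩ | ⟨y, hy⟩)
    · exact hused x t ((hcb x).trans ht) r i hr
    · obtain ⟨rfl, h5⟩ := h.prN_inj hy
      have : c y = t := Nat.cast_injective h5
      omega

end

end Pool.Agent.R709.CP
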