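import Pool.Agent.R709.CP.Generic

/-!
Transfer to elementary extensions, and the main theorem.
-/

set_option autoImplicit false
set_option linter.unusedSectionVars false

open FirstOrder FirstOrder.Language
open Pool.Agent.Helper227.EN
open Pool.Agent.TH752.AR

universe u v w

namespace Pool.Agent.R709.CP

/-- the term `s + t` -/
def cadd (s t : LAU.Term ℕ) : LAU.Term ℕ :=
  Functions.apply₂ (L := LAU) (Sum.inl AF.add : LA.Functions 2 ⊕ LU.Functions 2) s t
/-- the term `s · t` -/
def cmul (s t : LAU.Term ℕ) : LAU.Term ℕ :=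
  Functions.apply₂ (L := LAU) (Sum.inl AF.mul : LA.Functions 2 ⊕ LU.Functions 2) s t
/-- the formula `s < t` -/
def clt (s t : LAU.Term ℕ) : LAU.Formula ℕ :=
  Relations.formula₂ (L := LAU) (Sum.inl AR.lt : LA.Relations 2 ⊕ LU.Relations 2) s t
/-- the formula `U(s)` -/
def cU (s : LAU.Term ℕ) : LAU.Formula ℕ :=
  Relations.formula₁ (L := LAU) (Sum.inr UR.U : LA.Relations 1 ⊕ LU.Relations 1) s
/-- variables -/
def cv (i : ℕ) : LAU.Term ℕ := Term.var i

section realize
variable {M : Type u} [LA.Structure M]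

theorem r_cv (X : Set M) (v : ℕ → M) (i : ℕ) :
    @Term.realize LAU M (expand M X) ℕ v (cv i) = v i := rfl

theorem r_cU (X : Set M) (v : ℕ → M) (s : LAU.Term ℕ) :
    @Formula.Realize LAU M (expand M X) ℕ (cU s) v ↔
      @Term.realize LAU M (expand M X) ℕ v s ∈ X := by
  exact @Formula.realize_rel₁ LAU M (expand M X) ℕ v
    (Sum.inr UR.U : LA.Relations 1 ⊕ LU.Relations 1) s

variable [CommSemiring M] [LinearOrder M]

theorem r_cadd (hM : Comp M) (X : Set M) (v : ℕ → M) (s t : LAU.Term ℕ) :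
    @Term.realize LAU M (expand M X) ℕ v (cadd s t) =
      @Term.realize LAU M (expand M X) ℕ v s + @Term.realize LAU M (expand M X) ℕ v t := by
  rw [hM.add]
  exact @Term.realize_functions_apply₂ LAU M (expand M X) ℕ
    (Sum.inl AF.add : LA.Functions 2 ⊕ LU.Functions 2) s t v

theorem r_cmul (hM : Comp M) (X : Set M) (v : ℕ → M) (s t : LAU.Term ℕ) :
    @Term.realize LAU M (expand M X) ℕ v (cmul s t) =
      @Term.realize LAU M (expand M X) ℕ v s * @Term.realize LAU M (expand M X) ℕ v t := by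
  rw [hM.mul]
  exact @Term.realize_functions_apply₂ LAU M (expand M X) ℕ
    (Sum.inl AF.mul : LA.Functions 2 ⊕ LU.Functions 2) s t v

theorem r_clt (hM : Comp M) (X : Set M) (v : ℕ → M) (s t : LAU.Term ℕ) :
    @Formula.Realize LAU M (expand M X) ℕ (clt s t) v ↔
      @Term.realize LAU M (expand M X) ℕ v s < @Term.realize LAU M (expand M X) ℕ v t := by
  rw [hM.lt]
  exact @Formula.realize_rel₂ LAU M (expand M X) ℕ v
    (Sum.inl AR.lt : LA.Relations 2 ⊕ LU.Relations 2) s t

/-- the formula: there is `y` such that no element of `U` is in `[y, y + v₀)` -/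
noncomputable def gapF : LAU.Formula ℕ :=
  exL (∼ (exL (clt (cv 0) (cv 2) ⊓ cU (cadd (cv 1) (cv 0)))))

theorem r_gapF (hM : Comp M) (X : Set M) (v : ℕ → M) :
    @Formula.Realize LAU M (expand M X) ℕ gapF v ↔ ∃ y, ∀ x, x < v 0 → y + x ∉ X := by
  let _ := expand M X
  simp only [gapF, realize_exL, Formula.realize_not, Formula.realize_inf]
  refine exists_congr fun y => ?_
  push Not
  refine forall_congr' fun x => ?_
  rw [r_clt hM, r_cU, r_cadd hM]
  rfl

/-- the pairing term -/
def cpr (s t : LAU.Term ℕ) : LAU.Term ℕ := cadd (cmul (cadd s t) (cadd s t)) s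

theorem r_cpr (hM : Comp M) (X : Set M) (v : ℕ → M) (s t : LAU.Term ℕ) :
    @Term.realize LAU M (expand M X) ℕ v (cpr s t) =
      prN (@Term.realize LAU M (expand M X) ℕ v s) (@Term.realize LAU M (expand M X) ℕ v t) := by
  unfold cpr
  rw [r_cadd hM, r_cmul hM, r_cadd hM]
  rfl

/-- `v₀` is the last number `t` with the gap property such that `⟨v₁, t⟩ ∈ U` -/
noncomputable def lastF : LAU.Formula ℕ :=
  cU (cpr (cv 1) (cv 0)) ⊓ ∼ (exL (gapF ⊓ (clt (cv 1) (cv 0) ⊓ cU (cpr (cv 2) (cv 0)))))

theorem r_lastF (hM : Comp M) (X : Set M) (v : ℕ → M) :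
    @Formula.Realize LAU M (expand M X) ℕ lastF v ↔
      prN (v 1) (v 0) ∈ X ∧ ∀ t, (∃ y, ∀ x, x < t → y + x ∉ X) → v 0 < t → prN (v 1) t ∉ X := by
  let _ := expand M X
  simp only [lastF, realize_exL, Formula.realize_not, Formula.realize_inf]
  rw [r_cU, r_cpr hM, r_cv, r_cv]
  refine and_congr Iff.rfl ?_
  push Not
  refine forall_congr' fun t => ?_
  rw [r_gapF hM, r_clt hM, r_cU, r_cpr hM]
  rfl

/-- exchange of the variables `0` and `1` -/
def swp : ℕ → ℕ
  | 0 => 1
  | 1 => 0
  | n + 2 => n + 2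

/-- `v₁` is the unique `x` such that `v₀` is the last number `t` with the gap property such that
`⟨x, t⟩ ∈ U` -/
noncomputable def codeF : LAU.Formula ℕ :=
  lastF ⊓ ∼ (exL (Formula.relabel swp lastF ⊓ ∼ (Term.equal (cv 0) (cv 2))))

/-- the meaning of `lastF` -/
def Last (X : Set M) (s x : M) : Prop :=
  prN x s ∈ X ∧ ∀ t, (∃ y, ∀ z, z < t → y + z ∉ X) → s < t → prN x t ∉ X

theorem r_codeF (hM : Comp M) (X : Set M) (v : ℕ → M) :
    @Formula.Realize LAU M (expand M X) ℕ codeF v ↔
      Last X (v 0) (v 1) ∧ ∀ x, Last X (v 0) x → x = v 1 := by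
  let _ := expand M X
  simp only [codeF, realize_exL, Formula.realize_not, Formula.realize_inf,
    Formula.realize_relabel, Formula.realize_equal]
  rw [r_lastF hM]
  refine and_congr Iff.rfl ?_
  push Not
  refine forall_congr' fun x => ?_
  rw [r_lastF hM]
  rfl

end realize

section ext
variable {M : Type u} {N : Type v} [LA.Structure M] [LA.Structure N]
  {X : Set M} {Y : Set N}

/-- elementary extensions of models of `PA` are models of `PA` -/
theorem ext_pa (hM : M ⊨ PA) (f : ElemExt M X N Y) : N ⊨ PA := by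
  let _ : LU.Structure M := predStr M X
  let _ : LU.Structure N := predStr N Y
  rw [Theory.model_iff]
  intro σ hσ
  have h1 : M ⊨ σ := Theory.realize_sentence_of_mem PA hσ
  have h2 : M ⊨ (LHom.sumInl : LA →ᴸ LAU).onSentence σ :=
    (LHom.realize_onSentence M (LHom.sumInl : LA →ᴸ LAU) σ).2 h1
  have h3 : N ⊨ (LHom.sumInl : LA →ᴸ LAU).onSentence σ := by
    have h4 := @ElementaryEmbedding.map_sentence LAU M N (expand M X) (expand N Y) f
      ((LHom.sumInl : LA →ᴸ LAU).onSentence σ)
    exact h4.1 h2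
  exact (LHom.realize_onSentence N (LHom.sumInl : LA →ᴸ LAU) σ).1 h3

/-- transfer of formulas -/
theorem ext_formula (f : ElemExt M X N Y) (φ : LAU.Formula ℕ) (v : ℕ → M) :
    @Formula.Realize LAU N (expand N Y) ℕ φ (fun i => f (v i)) ↔
      @Formula.Realize LAU M (expand M X) ℕ φ v :=
  @ElementaryEmbedding.map_formula LAU M N (expand M X) (expand N Y) f ℕ φ v

end ext

section main
variable {M : Type u} {N : Type v} [LA.Structure M] [LA.Structure N]
  [CommSemiring M] [LinearOrder M] [IsStrictOrderedRing M] [CanonicallyOrderedAdd M]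
  [CommSemiring N] [LinearOrder N] [IsStrictOrderedRing N] [CanonicallyOrderedAdd N]
  {X : Set M} {Y : Set N}

theorem ext_natCast (hM : Comp M) (hN : Comp N) (f : ElemExt M X N Y) (j : ℕ) :
    f (j : M) = (j : N) := by
  have h0 : f (0 : M) = 0 := by
    rw [hM.zero, hN.zero]
    have := @ElementaryEmbedding.map_fun LAU M N (expand M X) (expand N Y) f 0
      (Sum.inl AF.zero : LA.Functions 0 ⊕ LU.Functions 0) ![]
    refine this.trans ?_
    exact congrArg (Structure.funMap (L := LA) AF.zero) (Subsingleton.elim _ _)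
  have h1 : f (1 : M) = 1 := by
    rw [hM.one, hN.one]
    have := @ElementaryEmbedding.map_fun LAU M N (expand M X) (expand N Y) f 0
      (Sum.inl AF.one : LA.Functions 0 ⊕ LU.Functions 0) ![]
    refine this.trans ?_
    exact congrArg (Structure.funMap (L := LA) AF.one) (Subsingleton.elim _ _)
  have hadd : ∀ x y : M, f (x + y) = f x + f y := by
    intro x y
    rw [hM.add, hN.add]
    have := @ElementaryEmbedding.map_fun LAU M N (expand M X) (expand N Y) f 2
      (Sum.inl AF.add : LA.Functions 2 ⊕ LU.Functions 2) ![x, y]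
    refine this.trans ?_
    refine congrArg (Structure.funMap (L := LA) AF.add) ?_
    funext i
    fin_cases i <;> rfl
  induction j with
  | zero => rw [Nat.cast_zero, Nat.cast_zero, h0]
  | succ j ih => rw [Nat.cast_succ, Nat.cast_succ, hadd, ih, h1]

/-- the standard model -/
theorem surj_of_std (hA : Ari LA M) (hB : Ari LA N) (hM : Comp M) (hN : Comp N)
    (hstd : ∀ m : M, ∃ j : ℕ, m = j) (hX : StronglyCPGeneric M X) (hY : StronglyCPGeneric N Y)
    (f : ElemExt M X N Y) : Function.Surjective f := by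
  have h1 : @Formula.Realize LAU M (expand M X) ℕ (∼ (exL (∼ gapF))) (fun _ => 0) := by
    let _ := expand M X
    simp only [realize_exL, Formula.realize_not]
    push Not
    intro x
    rw [r_gapF hM]
    obtain ⟨j, rfl⟩ := hstd x
    exact gap hA hX j
  have h2 := (ext_formula f _ _).2 h1
  let _ := expand N Y
  simp only [realize_exL, Formula.realize_not] at h2
  push Not at h2
  intro b
  have h3 := h2 b
  rw [r_gapF hN] at h3
  obtain ⟨j, rfl⟩ := std_of_gap hB hY h3
  exact ⟨(j : M), ext_natCast hM hN f j⟩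

/-- coded models -/
theorem surj_of_coded (hA : Ari LA M) (hB : Ari LA N) (hM : Comp M) (hN : Comp N)
    (hX : StronglyCPGeneric M X) (hY : StronglyCPGeneric N Y)
    {c : M → ℕ} (hc : Function.Injective c) (hc1 : ∀ x, prN x (c x : M) ∈ X)
    (hc2 : ∀ x, ∀ t : ℕ, c x < t → prN x (t : M) ∉ X)
    (f : ElemExt M X N Y) : Function.Surjective f := by
  have hcast : ∀ {i j : ℕ}, ((i : M) < (j : M)) ↔ i < j := Nat.cast_lt
  have hlast : ∀ x : M, Last X (c x : M) x := by
    intro x
    refine ⟨hc1 x, fun t ht hlt => ?_⟩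
    obtain ⟨j, rfl⟩ := std_of_gap hA hX ht
    exact hc2 x j (hcast.1 hlt)
  have hlast' : ∀ x x' : M, Last X (c x : M) x' → x' = x := by
    intro x x' h
    apply hc
    rcases lt_trichotomy (c x') (c x) with h1 | h1 | h1
    · exact absurd h.1 (hc2 x' (c x) h1)
    · exact h1
    · exact absurd (hc1 x') (h.2 (c x' : M) (gap hA hX _) (hcast.2 h1))
  have h1 : @Formula.Realize LAU M (expand M X) ℕ (∼ (exL (∼ (exL (gapF ⊓ codeF)))))
      (fun _ => 0) := by
    let _ := expand M X
    simp only [realize_exL, Formula.realize_not, Formula.realize_inf]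
    push Not
    intro x
    refine ⟨(c x : M), ?_, ?_⟩
    · rw [r_gapF hM]
      exact gap hA hX _
    · rw [r_codeF hM]
      exact ⟨hlast x, fun x' hx' => hlast' x x' hx'⟩
  have h2 := (ext_formula f _ _).2 h1
  intro b
  have h3 : ∃ s : N, (∃ y, ∀ z, z < s → y + z ∉ Y) ∧ Last Y s b ∧ ∀ x, Last Y s x → x = b := by
    let _ := expand N Y
    simp only [realize_exL, Formula.realize_not, Formula.realize_inf] at h2
    push Not at h2
    obtain ⟨s, h4, h5⟩ := h2 b
    rw [r_gapF hN] at h4
    rw [r_codeF hN] at h5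
    exact ⟨s, h4, h5⟩
  obtain ⟨s, h4, h5, h6⟩ := h3
  obtain ⟨j, rfl⟩ := std_of_gap hB hY h4
  -- transfer down
  have h7 : @Formula.Realize LAU N (expand N Y) ℕ (exL (Formula.relabel swp codeF))
      (fun i => f ((fun _ => (j : M)) i)) := by
    let _ := expand N Y
    rw [realize_exL]
    refine ⟨b, ?_⟩
    rw [Formula.realize_relabel, r_codeF hN]
    have e0 : (scons b (fun i => f ((fun _ => (j : M)) i)) ∘ swp) 0 = (j : N) :=
      ext_natCast hM hN f j
    have e1 : (scons b (fun i => f ((fun _ => (j : M)) i)) ∘ swp) 1 = b := rfl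
    rw [e0, e1]
    exact ⟨h5, h6⟩
  have h8 := (ext_formula f _ _).1 h7
  have h9 : ∃ a : M, Last X (j : M) a ∧ ∀ x, Last X (j : M) x → x = a := by
    let _ := expand M X
    rw [realize_exL] at h8
    obtain ⟨a, ha⟩ := h8
    rw [Formula.realize_relabel, r_codeF hM] at ha
    exact ⟨a, ha⟩
  obtain ⟨a, ha1, ha2⟩ := h9
  -- transfer up
  have h10 : @Formula.Realize LAU M (expand M X) ℕ codeF (scons (j : M) (scons a fun _ => 0)) := by
    rw [r_codeF hM]
    exact ⟨ha1, ha2⟩
  have h11 := (ext_formula f _ _).2 h10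
  rw [r_codeF hN] at h11
  have h12 : Last Y (j : N) (f a) := by
    have := h11.1
    have e0 : f (scons (j : M) (scons a fun _ => 0) 0) = (j : N) := ext_natCast hM hN f j
    rw [e0] at this
    exact this
  exact ⟨a, h6 _ h12⟩

end main

/-- The main theorem: every countable model `M` of `PA` has a strongly CP-generic subset `X` such
that no proper elementary extension `(N, Y)` of `(M, X)` is strongly CP-generic. -/
theorem main {M : Type u} [LA.Structure M] [Countable M] (hPA : M ⊨ PA) :
    ∃ X : Set M, StronglyCPGeneric M X ∧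
      ∀ (N : Type v) [LA.Structure N] (Y : Set N) (f : ElemExt M X N Y),
        ¬ Function.Surjective f → ¬ StronglyCPGeneric N Y := by
  obtain ⟨_, _, _, _, hA, hM⟩ := pa_ari hPA
  by_cases hstd : ∀ m : M, ∃ j : ℕ, m = j
  · obtain ⟨X, hX⟩ := exists_generic (M := M)
    refine ⟨X, hX, fun N _ Y f hf hY => hf ?_⟩
    obtain ⟨_, _, _, _, hB, hN⟩ := pa_ari (ext_pa hPA f)
    exact surj_of_std hA hB hM hN hstd hX hY f
  · push Not at hstd
    obtain ⟨c₀, hc₀⟩ := hstd
    obtain ⟨X, hX, c, hc, hc1, hc2⟩ := exists_coded hA hc₀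
    refine ⟨X, hX, fun N _ Y f hf hY => hf ?_⟩
    obtain ⟨_, _, _, _, hB, hN⟩ := pa_ari (ext_pa hPA f)
    exact surj_of_coded hA hB hM hN hX hY hc hc1 hc2 f

theorem natCast_of_rec {M : Type u} [LA.Structure M] [CommSemiring M] [LinearOrder M]
    (hM : Comp M) (g : ℕ → M) (h0 : g 0 = Structure.funMap (L := LA) AF.zero ![])
    (hs : ∀ j, g (j + 1) = Structure.funMap (L := LA) AF.add
      ![g j, Structure.funMap (L := LA) AF.one ![] ]) (j : ℕ) : g j = (j : M) := by
  induction j with
  | zero => rw [Nat.cast_zero, h0, hM.zero]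
  | succ j ih => rw [Nat.cast_succ, hs, ih, hM.add, hM.one]

/-- For the standard model: no strongly CP-generic set at all has a strongly CP-generic proper
elementary extension. -/
theorem main_std (X : Set ℕ) (hX : @StronglyCPGeneric ℕ stdStr X) (N : Type v) [LA.Structure N]
    (Y : Set N) (f : @ElemExt ℕ stdStr X N _ Y) (hf : ¬ Function.Surjective f) :
    ¬ StronglyCPGeneric N Y := by
  let _ : LA.Structure ℕ := stdStr
  intro hY
  have hPA : ℕ ⊨ PA := std_pa
  obtain ⟨_, _, _, _, hB, hN⟩ := pa_ari (ext_pa hPA f)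
  obtain ⟨i1, i2, i3, i4, hA, hM⟩ := pa_ari hPA
  have hstd : ∀ m : ℕ, ∃ j : ℕ, m = @Nat.cast ℕ i1.toNatCast j := fun m =>
    ⟨m, @natCast_of_rec ℕ _ i1 i2 hM id rfl (fun _ => rfl) m⟩
  exact hf (@surj_of_std ℕ N _ _ i1 i2 i3 i4 _ _ _ _ X Y hA hB hM hN hstd hX hY f)

end Pool.Agent.R709.CP
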